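import Pool.Agent.Mpub.Main
import Pool.Agent.Cpub.Main

/-!
# Regular holonomic modules over microdifferential and over formal microdifferential operators

Let `X` be a complex manifold of dimension `d + 1`, `T = U` an open subset of `T*X` and `Z` its zero
section. `MSheaf T d` describes the sheaves of rings `E → hat E` of microdifferential and of formal
microdifferential operators on `U`: at every point outside of `Z` coordinates of `X` with
`p = (0; dt)` identify the operators of order `≤ 0` with their total symbols, and the product is
given by the Leibniz formula; on `Z` both sheaves are the differential operators. The theorem is
proved for all `MSheaf T d`, so it holds for every `X` and every open `U ⊆ T*X`. (If `dim X = 0`, then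
`T*X = X` is the zero section and there is nothing to prove.) The last part of the theorem says that
for `X = ℂ^(d+1)` and every open `U ⊆ T*X` the sheaves `E` and `hat E` on `U`, given by homogeneous total
symbols (`IsCot`), do form an `MSheaf`, so that the first part applies to them.

Sheaves are given as étalé spaces. `RH` is the definition of regular holonomic modules:

* coherent. The sheaves of rings `E`, `hat E`, `E(0)`, `hat E(0)` are coherent, so that a module is coherent
  if and only if it is locally the cokernel of a matrix of sections (`FP`).
* The support `Λ` has dimension at most `dim X`; by the involutivity theorem it is Lagrangian. Only
  the bound of the dimension is used, and only outside of the zero section (the dimension of the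
  intersection with the zero section is at most `dim X` in any case).
* Locally there is a coherent submodule `L` over the operators of order `≤ 0` which generates `M` and
  satisfies `J_Λ L ⊆ L`.

The same definition is used for `E` (`P.mic`) and for `hat E` (`P.hat`).

`P.Form N M j`: `j : N → M` is an injective morphism of sheaves which has the universal property of
the tensor product `hat E ⊗_E N` at every point. (Injectivity follows from the faithful flatness of `hat E`
over `E`.)

`EssSurj P` says that `Φ_U` is essentially surjective, `IsFull P` that it is full; it is faithful by the
uniqueness in the universal property. So `Φ_U` is an equivalence of categories.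

Proof. At the stalks, outside of the zero section (Pool/Agent/Ep): reduction to generic position by a
quantised linear symplectic transformation, Weierstrass division, Birkhoff normal form on the fibre
and its convergence on every line (Gauss norms on a tree of discs around the branches of `Λ`, a theorem
of Liouville type), descent to microdifferential operators. Uniqueness of the microdifferential
form in a lattice over `hat E_p(0)`: division theorem for microdifferential operators, and no non convergent
formal solutions of regular systems. Uniqueness gives the gluing of the local forms (Pool/Agent/Msh),
and, applied to `M ⊕ M'` and the graph of a morphism, fullness. Finite presentations descend from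
`hat E(0)` to `E(0)`.
-/

set_option autoImplicit false

open Pool.Agent.Msh (FMod)
open Pool.Agent.Mpub
open Pool.Agent.Cpub

/-- Let `E → hat E` be the sheaves of microdifferential and of formal microdifferential operators on an
open set of the cotangent bundle of a complex manifold of dimension `d + 1`.

1. For every regular holonomic `hat E`-module `M` there are a regular holonomic `E`-module `N` and a
morphism `j : N → M` which makes `M` the sheaf `hat E ⊗_E N`.

2. For two such pairs, every `hat E`-linear map `M → M'` (even between two stalks) maps `N` to `N'`.

3. The sheaves `E → hat E` on the open subsets of `T*ℂ^(d+1)`, given by homogeneous total symbols and the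
Leibniz formula, are such a pair. -/
theorem Pool.Agent.Results.MP_b26194_ag.SheafEquivalence.result :
    (∀ (T : Type) [TopologicalSpace T] (d : ℕ) (P : MSheaf T d), EssSurj P ∧ IsFull P) ∧
    ∀ (T : Type) [TopologicalSpace T] (d : ℕ) (c : T → (Fin (d + 1) → ℂ) × (Fin (d + 1) → ℂ)),
      Topology.IsOpenEmbedding c →
        ∃ (P : MSheaf T d) (sy : ∀ p, P.hat.A p → ℤ → Pw (d + 1)), IsCot c P sy :=
  ⟨fun _ _ _ _ => ⟨fun _ h => main h,
    fun _ _ _ _ _ _ h1 h2 h1' h2' q g hg u => full h1 h2 h1' h2' q g hg u⟩,
    fun T _ d c hc => exists_cot T d c hc⟩
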